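import Pool.Agent.Helper17.QD.Glue

/-!
# Project QD (MP_d112a4_gt), glue, module IQC: complex conjugate representations are quasifuchsian
-/

set_option autoImplicit false

open Filter Topology Matrix Set Metric MeasureTheory
open scoped ComplexConjugate ComplexOrder ENNReal

namespace Pool.Agent.Helper42.QL

open Pool.Agent.Helper17.QD Pool.Agent.Helper35.PM

/-- entrywise conjugation -/
private noncomputable def cm (P : Mat) : Mat := P.map (starRingEnd ℂ)

private lemma cm_apply (P : Mat) (i j : Fin 2) : cm P i j = conj (P i j) := rfl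

private lemma cm_cm (P : Mat) : cm (cm P) = P := by
  ext i j
  simp [cm_apply]

private lemma cm_mul (P Q : Mat) : cm (P * Q) = cm P * cm Q := by
  unfold cm
  rw [Matrix.map_mul]

private lemma cm_ct (P : Mat) : (cm P)ᴴ = cm (Pᴴ) := by
  ext i j
  simp [cm_apply, Matrix.conjTranspose_apply]

private lemma cm_trace (P : Mat) : (cm P).trace = conj P.trace := by
  simp [Matrix.trace, cm_apply]

private lemma cm_smul (r : ℂ) (P : Mat) : cm (r • P) = conj r • cm P := by
  ext i j
  simp [cm_apply]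

private lemma cm_density (P : Mat) : density (cm P) = cm (density P) := by
  unfold density
  rw [cm_smul, cm_trace, map_inv₀]

private lemma cm_posDef (P : Mat) (h : P.PosDef) : (cm P).PosDef := by
  have e : cm P = Pᵀ := by
    ext i j
    have h2 := congrFun (congrFun h.1 j) i
    rw [Matrix.conjTranspose_apply] at h2
    rw [cm_apply, Matrix.transpose_apply, ← h2]
    rfl
  rw [e]
  exact h.transpose

private lemma cm_cont : Continuous cm := by
  unfold cm
  exact continuous_id.matrix_map Complex.continuous_conj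

private noncomputable def cmH : Mat ≃ₜ Mat where
  toFun := cm
  invFun := cm
  left_inv := cm_cm
  right_inv := cm_cm
  continuous_toFun := cm_cont
  continuous_invFun := cm_cont

private lemma cc_coe {Γ : Type} [Group Γ] (ρ : Γ →* SL) (γ : Γ) :
    ((cc ρ γ : SL) : Mat) = cm (ρ γ : Mat) := rfl

private lemma cm_hs (P : Mat) : hs (cm P) = hs P := by
  unfold hs
  simp [cm_apply]

private lemma mcp {Γ : Type} (u : Γ → Mat) (Q : Mat) (h : MapClusterPt Q cofinite u) :
    MapClusterPt (cm Q) cofinite (fun γ => cm (u γ)) :=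
  h.continuousAt_comp cm_cont.continuousAt

private lemma orb {Γ : Type} [Group Γ] (ρ : Γ →* SL) (P : Mat) (γ : Γ) :
    density ((cc ρ γ : Mat) * cm P * (cc ρ γ : Mat)ᴴ) =
      cm (density ((ρ γ : Mat) * P * (ρ γ : Mat)ᴴ)) := by
  rw [cc_coe, cm_ct, ← cm_mul, ← cm_mul, cm_density]

private lemma orb1 {Γ : Type} [Group Γ] (ρ : Γ →* SL) (γ : Γ) :
    density ((cc ρ γ : Mat) * (cc ρ γ : Mat)ᴴ) =
      cm (density ((ρ γ : Mat) * (ρ γ : Mat)ᴴ)) := by
  rw [cc_coe, cm_ct, ← cm_mul, cm_density]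

private lemma limitSet_cc {Γ : Type} [Group Γ] (ρ : Γ →* SL) :
    limitSet (cc ρ) = cmH '' limitSet ρ := by
  ext Q
  constructor
  · intro h
    refine ⟨cm Q, ?_, cm_cm Q⟩
    have h1 := mcp _ _ h
    have e : (fun γ => cm (density ((cc ρ γ : Mat) * (cc ρ γ : Mat)ᴴ))) =
        fun γ => density ((ρ γ : Mat) * (ρ γ : Mat)ᴴ) := by
      funext γ
      rw [orb1, cm_cm]
    rw [e] at h1
    exact h1
  · rintro ⟨R, hR, rfl⟩
    have h1 := mcp _ _ hR
    show MapClusterPt (cm R) cofinite (fun γ => density ((cc ρ γ : Mat) * (cc ρ γ : Mat)ᴴ))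
    have e : (fun γ => density ((cc ρ γ : Mat) * (cc ρ γ : Mat)ᴴ)) =
        fun γ => cm (density ((ρ γ : Mat) * (ρ γ : Mat)ᴴ)) := by
      funext γ
      rw [orb1]
    rw [e]
    exact h1

private lemma cm_lin : IsLinearMap ℝ cm := by
  refine ⟨fun P Q => ?_, fun r P => ?_⟩
  · ext i j
    simp [cm_apply]
  · ext i j
    simp [cm_apply]

theorem hIQC : StIQC := by
  intro Γ _ ρ h
  refine ⟨?_, ?_, ?_, ?_⟩
  · intro γ hγ
    apply h.faithful γ
    rcases hγ with hγ | hγ
    · left
      have h1 := congrArg cm hγ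
      rw [cc_coe, cm_cm] at h1
      rw [h1]
      ext i j
      fin_cases i <;> fin_cases j <;> simp [cm_apply]
    · right
      have h1 := congrArg cm hγ
      rw [cc_coe, cm_cm] at h1
      rw [h1]
      ext i j
      fin_cases i <;> fin_cases j <;> simp [cm_apply]
  · intro X
    have h1 := h.discrete X
    have e : {γ : Γ | hs (cc ρ γ) ≤ X} = {γ : Γ | hs (ρ γ) ≤ X} := by
      ext γ
      simp only [mem_setOf_eq]
      rw [cc_coe, cm_hs]
    rw [e]
    exact h1
  · obtain ⟨e⟩ := h.jordan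
    rw [limitSet_cc]
    exact ⟨(cmH.image (limitSet ρ)).symm.trans e⟩
  · obtain ⟨C, K, h1, h2, h3, h4, h5, h6, h7⟩ := h.cocompact
    refine ⟨cm '' C, cm '' K, h1.image _, h2.is_linear_image cm_lin, ?_, ?_, h5.image cm_cont,
      ?_, ?_⟩
    · rintro _ ⟨P, hP, rfl⟩
      refine ⟨cm_posDef P (h3 P hP).1, ?_⟩
      rw [cm_trace, (h3 P hP).2, map_one]
    · rintro γ _ ⟨P, hP, rfl⟩
      exact ⟨_, h4 γ P hP, (orb ρ P γ).symm⟩
    · rintro _ ⟨P, hP, rfl⟩
      refine ⟨cm_posDef P (h6 P hP).1, ?_⟩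
      rw [cm_trace, (h6 P hP).2, map_one]
    · rintro _ ⟨P, hP, rfl⟩
      obtain ⟨γ, hγ⟩ := h7 P hP
      exact ⟨γ, _, hγ, (orb ρ P γ).symm⟩

end Pool.Agent.Helper42.QL
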